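import Mathlib
import Pool.Agent.ThreeP.Basic

set_option autoImplicit false

namespace Pool.Agent.Results.MP_1d2ce7_al.AllPairsBlock

open FreeGroup

variable {r : ℕ}

/-- A word is partially positive if some generator occurs in its reduced form and occurs only with
positive exponents. The letter `(a, true)` is `a` and the letter `(a, false)` is `a⁻¹`. -/
def PartiallyPositive (w : FreeGroup (Fin r)) : Prop :=
  ∃ a : Fin r, (a, true) ∈ w.toWord ∧ (a, false) ∉ w.toWord

/-- A word is 3P if it is the image of a partially positive word under an automorphism. -/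
def Is3P (w : FreeGroup (Fin r)) : Prop :=
  ∃ (φ : FreeGroup (Fin r) ≃* FreeGroup (Fin r)) (v : FreeGroup (Fin r)),
    PartiallyPositive v ∧ w = φ v

/-- A reduced word is 3P-blocking if it is not a subword of any cyclically reduced 3P word. -/
def IsBlocking (u : List (Fin r × Bool)) : Prop :=
  IsReduced u ∧ ∀ w : FreeGroup (Fin r), Is3P w → IsCyclicallyReduced w.toWord → ¬ u <:+: w.toWord

/-- The word `u` contains every reduced word of length two as a subword. -/
def ContainsAllPairs (u : List (Fin r × Bool)) : Prop :=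
  ∀ x y : Fin r × Bool, IsReduced [x, y] → [x, y] <:+: u

lemma exists_letter (hr : 2 ≤ r) (p q : Fin r × Bool) : ∃ t : Fin r × Bool, t ≠ p ∧ t ≠ q := by
  by_contra hc
  push Not at hc
  have h1 : (Finset.univ : Finset (Fin r × Bool)) ⊆ {p, q} := by
    intro t _
    rw [Finset.mem_insert, Finset.mem_singleton]
    by_cases h : t = p
    · exact Or.inl h
    · exact Or.inr (hc t h)
  have h2 := Finset.card_le_card h1
  have h3 : (Finset.univ : Finset (Fin r × Bool)).card = r * 2 := by simp
  have h4 : ({p, q} : Finset (Fin r × Bool)).card ≤ 2 := Finset.card_le_two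
  omega

lemma isReduced_pair {a t : Fin r × Bool} (h : t ≠ (a.1, !a.2)) : IsReduced [a, t] := by
  rw [isReduced_cons_cons]
  refine ⟨fun h1 => ?_, IsReduced.singleton⟩
  by_contra h2
  apply h
  refine Prod.ext h1.symm ?_
  change t.2 = !a.2
  revert h2
  cases a.2 <;> cases t.2 <;> simp

lemma isReduced_pair' {t x : Fin r × Bool} (h : t ≠ (x.1, !x.2)) : IsReduced [t, x] := by
  rw [isReduced_cons_cons]
  refine ⟨fun h1 => ?_, IsReduced.singleton⟩
  by_contra h2
  apply h
  refine Prod.ext h1 ?_
  change t.2 = !x.2
  revert h2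
  cases x.2 <;> cases t.2 <;> simp

lemma exists_word (hr : 2 ≤ r) (Ls : List ((Fin r × Bool) × (Fin r × Bool))) :
    ∃ u : List (Fin r × Bool), u ≠ [] ∧ IsReduced u ∧
      ∀ p ∈ Ls, IsReduced [p.1, p.2] → [p.1, p.2] <:+: u := by
  induction Ls with
  | nil => exact ⟨[(⟨0, by omega⟩, true)], by simp, IsReduced.singleton, by simp⟩
  | cons p Ls ih =>
    obtain ⟨u, hne, hred, hu⟩ := ih
    by_cases hp : IsReduced [p.1, p.2]
    · obtain ⟨t, ht1, ht2⟩ := exists_letter hr ((u.getLast hne).1, !(u.getLast hne).2)
        (p.1.1, !p.1.2)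
      have h1 : IsReduced (u ++ [t]) := by
        have h2 := IsReduced.append_overlap (L₁ := u.dropLast) (L₂ := [u.getLast hne]) (L₃ := [t])
          (by rw [List.dropLast_append_getLast]; exact hred) (isReduced_pair ht1) (by simp)
        rwa [List.dropLast_append_getLast] at h2
      have h3 : IsReduced ([t] ++ [p.1] ++ [p.2]) :=
        IsReduced.append_overlap (isReduced_pair' ht2) hp (by simp)
      have h4 : IsReduced (u ++ [t] ++ [p.1, p.2]) :=
        IsReduced.append_overlap h1 (by simpa using h3) (by simp)
      refine ⟨u ++ [t] ++ [p.1, p.2], by simp, h4, ?_⟩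
      intro q hq hqr
      rcases List.mem_cons.1 hq with rfl | hq
      · exact ⟨u ++ [t], [], by simp⟩
      · obtain ⟨s, s', hs⟩ := hu q hq hqr
        exact ⟨s, s' ++ [t] ++ [p.1, p.2], by rw [← hs]; simp⟩
    · refine ⟨u, hne, hred, ?_⟩
      intro q hq hqr
      rcases List.mem_cons.1 hq with rfl | hq
      · exact absurd hqr hp
      · exact hu q hq hqr

/-- In every free group of rank at least two there is a reduced word containing all reduced words
of length two, and every such word is 3P-blocking. -/
theorem result (r : ℕ) (hr : 2 ≤ r) :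
    (∃ u : List (Fin r × Bool), IsReduced u ∧ ContainsAllPairs u) ∧
    ∀ u : List (Fin r × Bool), IsReduced u → ContainsAllPairs u → IsBlocking u := by
  constructor
  · obtain ⟨u, _, hred, hu⟩ := exists_word hr (Finset.univ : Finset _).toList
    exact ⟨u, hred, fun x y hxy => hu (x, y) (by simp) hxy⟩
  · intro u hred hall
    refine ⟨hred, ?_⟩
    rintro w ⟨φ, v, ⟨c, _, hc⟩, rfl⟩ hcyc hinf
    exact ThreeP.main φ c v hc hcyc fun x y hxy => (hall x y hxy).trans hinf

end Pool.Agent.Results.MP_1d2ce7_al.AllPairsBlock
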